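import Mathlib

/-!
Slowly oscillating functions of the squared distance on a Hilbert space: the patterns on a finite
set of `K` points take at most polynomially (in `K`) many values up to `ε`.
-/

set_option autoImplicit false
open Filter Topology

namespace Pool.Agent.V5helper24.Null

/-- `log (1 + log (1 + s))` -/
noncomputable def L (s : ℝ) : ℝ := Real.log (1 + Real.log (1 + s))

/-- the slowly oscillating function -/
noncomputable def G (s : ℝ) : ℝ := Real.sin (L s)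

lemma abs_sin_sub_le (x y : ℝ) : |Real.sin x - Real.sin y| ≤ |x - y| := by
  rw [Real.sin_sub_sin]
  have h1 : |Real.sin ((x - y) / 2)| ≤ |(x - y) / 2| := Real.abs_sin_le_abs
  have h2 : |Real.cos ((x + y) / 2)| ≤ 1 := Real.abs_cos_le_one _
  rw [abs_mul, abs_mul, abs_two]
  rw [abs_div, abs_two] at h1
  have := abs_nonneg (Real.sin ((x - y) / 2))
  nlinarith [abs_nonneg (Real.cos ((x + y) / 2))]

lemma abs_G_sub_le_L (s t : ℝ) : |G s - G t| ≤ |L s - L t| := abs_sin_sub_le _ _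

lemma log1_nonneg {s : ℝ} (hs : 0 ≤ s) : 0 ≤ Real.log (1 + s) :=
  Real.log_nonneg (by linarith)

lemma L_nonneg {s : ℝ} (hs : 0 ≤ s) : 0 ≤ L s :=
  Real.log_nonneg (by linarith [log1_nonneg hs])

lemma L_mono {s t : ℝ} (hs : 0 ≤ s) (hst : s ≤ t) : L s ≤ L t := by
  have h1 : Real.log (1 + s) ≤ Real.log (1 + t) := Real.log_le_log (by linarith) (by linarith)
  exact Real.log_le_log (by linarith [log1_nonneg hs]) (by linarith)

lemma L_sub_le {s t : ℝ} (hs : 0 ≤ s) (hst : s ≤ t) :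
    L t - L s ≤ (Real.log (1 + t) - Real.log (1 + s)) / (1 + Real.log (1 + s)) := by
  have h0 := log1_nonneg hs
  have h1 := log1_nonneg (hs.trans hst)
  unfold L
  rw [← Real.log_div (by linarith) (by linarith)]
  refine (Real.log_le_sub_one_of_pos (by positivity)).trans (le_of_eq ?_)
  field_simp
  ring

lemma log1_sub_le {s t : ℝ} (hs : 0 ≤ s) (hst : s ≤ t) :
    Real.log (1 + t) - Real.log (1 + s) ≤ t - s := by
  rw [← Real.log_div (by linarith) (by linarith)]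
  refine (Real.log_le_sub_one_of_pos (by apply div_pos <;> linarith)).trans ?_
  have : (1 + t) / (1 + s) - 1 = (t - s) / (1 + s) := by
    field_simp
    ring
  rw [this]
  exact div_le_self (by linarith) (by linarith)

lemma log1_sub_le_log {s t C : ℝ} (hs : 0 ≤ s) (hst : s ≤ t) (hC : 1 ≤ C) (htC : t ≤ C * s) :
    Real.log (1 + t) - Real.log (1 + s) ≤ Real.log C := by
  rw [← Real.log_div (by linarith) (by linarith)]
  refine Real.log_le_log (by apply div_pos <;> linarith) ?_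
  rw [div_le_iff₀ (by linarith)]
  nlinarith

lemma L_sub_le_sub {s t : ℝ} (hs : 0 ≤ s) (hst : s ≤ t) : L t - L s ≤ t - s := by
  refine (L_sub_le hs hst).trans ?_
  refine (div_le_self ?_ (by linarith [log1_nonneg hs])).trans (log1_sub_le hs hst)
  have := Real.log_le_log (by linarith : (0 : ℝ) < 1 + s) (by linarith : 1 + s ≤ 1 + t)
  linarith

/-- `G` is Lipschitz on `[0, ∞)`. -/
lemma abs_G_sub_le {s t : ℝ} (hs : 0 ≤ s) (ht : 0 ≤ t) : |G s - G t| ≤ |s - t| := by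
  refine (abs_G_sub_le_L s t).trans ?_
  rcases le_total s t with h | h
  · rw [abs_sub_comm (L s), abs_sub_comm s, abs_of_nonneg (by linarith [L_mono hs h]),
      abs_of_nonneg (by linarith)]
    exact L_sub_le_sub hs h
  · rw [abs_of_nonneg (by linarith [L_mono ht h]), abs_of_nonneg (by linarith)]
    exact L_sub_le_sub ht h

lemma L_sub_le_div {s t C : ℝ} (hs : 0 ≤ s) (hst : s ≤ t) (hC : 1 ≤ C) (htC : t ≤ C * s) :
    L t - L s ≤ Real.log C / (1 + Real.log (1 + s)) := by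
  refine (L_sub_le hs hst).trans ?_
  have h0 := log1_nonneg hs
  gcongr
  exact log1_sub_le_log hs hst hC htC

/-- slow variation, for large arguments -/
lemma abs_L_sub_le_far {s t C R : ℝ} (hR : 0 ≤ R) (hs : R ≤ s) (ht : R ≤ t) (hC : 1 ≤ C)
    (hst : t ≤ C * s) (hts : s ≤ C * t) :
    |L s - L t| ≤ Real.log C / (1 + Real.log (1 + R)) := by
  have h0 := log1_nonneg hR
  have hlC := Real.log_nonneg hC
  rcases le_total s t with h | h
  · rw [abs_sub_comm, abs_of_nonneg (by linarith [L_mono (hR.trans hs) h])]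
    refine (L_sub_le_div (hR.trans hs) h hC hst).trans ?_
    have := Real.log_le_log (by linarith : (0 : ℝ) < 1 + R) (by linarith : 1 + R ≤ 1 + s)
    gcongr
  · rw [abs_of_nonneg (by linarith [L_mono (hR.trans ht) h])]
    refine (L_sub_le_div (hR.trans ht) h hC hts).trans ?_
    have := Real.log_le_log (by linarith : (0 : ℝ) < 1 + R) (by linarith : 1 + R ≤ 1 + t)
    gcongr

lemma abs_G_sub_le_far {s t C R : ℝ} (hR : 0 ≤ R) (hs : R ≤ s) (ht : R ≤ t) (hC : 1 ≤ C)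
    (hst : t ≤ C * s) (hts : s ≤ C * t) :
    |G s - G t| ≤ Real.log C / (1 + Real.log (1 + R)) :=
  (abs_G_sub_le_L s t).trans (abs_L_sub_le_far hR hs ht hC hst hts)

lemma abs_G_sub_le_log {s t C : ℝ} (hs : 0 ≤ s) (ht : 0 ≤ t) (hC : 1 ≤ C)
    (hst : t ≤ C * s) (hts : s ≤ C * t) :
    |G s - G t| ≤ Real.log C := by
  have := abs_G_sub_le_far le_rfl hs ht hC hst hts
  simpa using this

section Hilbert

variable {E : Type} [NormedAddCommGroup E] [InnerProductSpace ℝ E]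

/-- One term of the approximating sum. -/
noncomputable def term (P : Finset E) (η : ℝ) (p₀ : E) : Option (P × Bool) → E
  | none => 0
  | some (p, b) => (if b then η else -η) • ((p : E) - p₀)

/-- greedy approximation -/
lemma greedy (P : Finset E) (p₀ : E) (A δ : ℝ) (hA : 0 < A) (hδ : 0 < δ)
    (T : ℕ) : ∀ u : E, ‖u‖ ^ 2 ≤ T * (δ ^ 2 / A ^ 2) →
      ∃ c : Fin T → Option (P × Bool), ∀ p ∈ P, ‖p - p₀‖ ≤ A →
        |inner ℝ (u - ∑ t, term P (δ / A ^ 2) p₀ (c t)) (p - p₀)| ≤ δ := by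
  induction T with
  | zero =>
    intro u hu
    refine ⟨fun t => t.elim0, fun p _ _ => ?_⟩
    have : ‖u‖ = 0 := by
      have : ‖u‖ ^ 2 ≤ 0 := by simpa using hu
      nlinarith [norm_nonneg u]
    rw [norm_eq_zero] at this
    simp [this, hδ.le]
  | succ T ih =>
    intro u hu
    by_cases h : ∀ p ∈ P, ‖p - p₀‖ ≤ A → |inner ℝ u (p - p₀)| ≤ δ
    · refine ⟨fun _ => none, fun p hp hpA => ?_⟩
      simpa [term] using h p hp hpA
    · push Not at h
      obtain ⟨p, hp, hpA, hpδ⟩ := h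
      set a := p - p₀ with ha
      obtain ⟨b, hb⟩ : ∃ b : Bool, δ < (if b then (1 : ℝ) else -1) * inner ℝ u a := by
        rcases lt_abs.1 hpδ with h | h
        · exact ⟨true, by simpa using h⟩
        · exact ⟨false, by simpa using h⟩
      set σ : ℝ := if b then (1 : ℝ) else -1 with hσ
      have hσ2 : σ ^ 2 = 1 := by rw [hσ]; split_ifs <;> norm_num
      set η := δ / A ^ 2 with hη
      have hη0 : 0 < η := by positivity
      have hterm : term P η p₀ (some (⟨p, hp⟩, b)) = (σ * η) • a := by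
        simp only [term, hσ, ha]
        split_ifs <;> simp
      have hu' : ‖u - (σ * η) • a‖ ^ 2 ≤ T * (δ ^ 2 / A ^ 2) := by
        rw [norm_sub_sq_real, inner_smul_right, norm_smul, mul_pow]
        have h1 : ‖σ * η‖ ^ 2 = η ^ 2 := by
          rw [Real.norm_eq_abs, sq_abs, mul_pow, hσ2, one_mul]
        rw [h1]
        have h2 : ‖a‖ ^ 2 ≤ A ^ 2 := by gcongr
        have h3 : η ^ 2 * ‖a‖ ^ 2 ≤ η ^ 2 * A ^ 2 := by gcongr
        have h4 : η ^ 2 * A ^ 2 = δ ^ 2 / A ^ 2 := by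
          rw [hη]; field_simp
        have h5 : η * δ ≤ η * (σ * inner ℝ u a) := by gcongr
        have h6 : η * δ = δ ^ 2 / A ^ 2 := by rw [hη]; field_simp
        push_cast at hu
        nlinarith
      obtain ⟨c, hc⟩ := ih _ hu'
      refine ⟨Fin.cons (some (⟨p, hp⟩, b)) c, fun q hq hqA => ?_⟩
      rw [Fin.sum_univ_succ]
      simp only [Fin.cons_zero, Fin.cons_succ]
      rw [hterm, ← sub_sub]
      exact hc q hq hqA

/-- the type of codes -/
abbrev Code (P : Finset E) (M T : ℕ) : Type :=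
  (P × Fin (M + 1) × (Fin T → Option (P × Bool))) ⊕ (P × Fin (P.card + 1) × Fin (M + 1))

omit [NormedAddCommGroup E] [InnerProductSpace ℝ E] in
lemma card_code_le (P : Finset E) (M T : ℕ) :
    Fintype.card (Code P M T) ≤ (2 * (M + 1)) * (2 * P.card + 1) ^ (T + 2) := by
  simp only [Code, Fintype.card_sum, Fintype.card_prod, Fintype.card_fin, Fintype.card_coe,
    Fintype.card_pi, Fintype.card_option, Fintype.card_bool, Finset.prod_const, Finset.card_univ]
  set K := P.card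
  have h1 : K * ((M + 1) * (K * 2 + 1) ^ T) ≤ (M + 1) * (2 * K + 1) ^ (T + 2) := by
    calc K * ((M + 1) * (K * 2 + 1) ^ T) ≤ (2 * K + 1) ^ 2 * ((M + 1) * (K * 2 + 1) ^ T) := by
          gcongr
          nlinarith
      _ = _ := by ring
  have h2 : K * ((K + 1) * (M + 1)) ≤ (M + 1) * (2 * K + 1) ^ (T + 2) := by
    calc K * ((K + 1) * (M + 1)) ≤ (2 * K + 1) ^ 2 * (M + 1) := by nlinarith
      _ ≤ (2 * K + 1) ^ (T + 2) * (M + 1) := by
        gcongr
        · omega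
        · omega
      _ = _ := by ring
  nlinarith

/-- the description of `v` by a code -/
def Desc (P : Finset E) (M T : ℕ) (ε δ C R A : ℝ) (v : E) : Code P M T → Prop
  | Sum.inl (p₀, m, c) => ‖v - p₀‖ < R ∧ ((m : ℕ) : ℝ) * δ ≤ ‖v - p₀‖ ^ 2 ∧
      ‖v - p₀‖ ^ 2 < (((m : ℕ) : ℝ) + 1) * δ ∧
      ∀ p ∈ P, ‖p - p₀‖ ≤ A →
        |inner ℝ (v - p₀ - ∑ t, term P (δ / A ^ 2) p₀ (c t)) (p - p₀)| ≤ δ
  | Sum.inr (p₀, j, m) => R ≤ ‖v - p₀‖ ∧ (∀ p ∈ P, ‖v - p₀‖ ≤ ‖v - p‖) ∧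
      (P.filter (fun p : E => ‖p - (p₀ : E)‖ < C * ‖v - (p₀ : E)‖)).card = (j : ℕ) ∧
      ((m : ℕ) : ℝ) * (ε / 4) ≤ G (‖v - p₀‖ ^ 2) + 1 ∧
      G (‖v - p₀‖ ^ 2) + 1 < (((m : ℕ) : ℝ) + 1) * (ε / 4)

lemma exists_floor {x δ : ℝ} (hx : 0 ≤ x) (hδ : 0 < δ) (M : ℕ) (hM : x / δ ≤ M) :
    ∃ m : Fin (M + 1), ((m : ℕ) : ℝ) * δ ≤ x ∧ x < (((m : ℕ) : ℝ) + 1) * δ := by
  have h0 : 0 ≤ x / δ := by positivity
  refine ⟨⟨⌊x / δ⌋₊, ?_⟩, ?_, ?_⟩
  · have : ⌊x / δ⌋₊ ≤ M := by
      rw [← Nat.cast_le (α := ℝ)]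
      exact (Nat.floor_le h0).trans hM
    omega
  · have := Nat.floor_le h0
    rwa [le_div_iff₀ hδ] at this
  · have := Nat.lt_floor_add_one (x / δ)
    rwa [div_lt_iff₀ hδ] at this

lemma G_bounds (s : ℝ) : -1 ≤ G s ∧ G s ≤ 1 := ⟨Real.neg_one_le_sin _, Real.sin_le_one _⟩

omit [InnerProductSpace ℝ E] in
/-- a point much further away from `p₀` than `v`. -/
lemma far_point {C : ℝ} (hC : 1 < C) {v p₀ p : E} (h : C * ‖v - p₀‖ ≤ ‖p - p₀‖) :
    |G (‖v - p‖ ^ 2) - G (‖p - p₀‖ ^ 2)| ≤ 2 / (C - 1) := by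
  set r := ‖v - p₀‖ with hr
  set ρ := ‖p - p₀‖ with hρ
  have hr0 : 0 ≤ r := norm_nonneg _
  have hρ0 : 0 ≤ ρ := norm_nonneg _
  have h1 : ‖v - p‖ ≤ ρ + r := by
    have : v - p = (v - p₀) - (p - p₀) := by abel
    rw [this]
    exact (norm_sub_le _ _).trans (by linarith)
  have h2 : ρ ≤ ‖v - p‖ + r := by
    have : p - p₀ = (v - p₀) - (v - p) := by abel
    rw [hρ, this]
    exact (norm_sub_le _ _).trans (by linarith)
  have hC0 : 0 < C := by linarith
  have hC1 : 0 < C - 1 := by linarith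
  set κ := C / (C - 1) with hκ
  have hκ1 : 1 ≤ κ := by rw [hκ, le_div_iff₀ hC1]; linarith
  have hrρ : r ≤ ρ / C := by rw [le_div_iff₀ hC0]; linarith
  have hn : 0 ≤ ‖v - p‖ := norm_nonneg _
  have e1 : ‖v - p‖ ≤ κ * ρ := by
    refine h1.trans ?_
    have : ρ + ρ / C ≤ κ * ρ := by
      have h3 : 1 + 1 / C ≤ κ := by
        rw [hκ, le_div_iff₀ hC1]
        field_simp
        nlinarith
      calc ρ + ρ / C = (1 + 1 / C) * ρ := by ring
        _ ≤ κ * ρ := by gcongr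
    linarith
  have e2 : ρ ≤ κ * ‖v - p‖ := by
    have h3 : ρ * (1 - 1 / C) ≤ ‖v - p‖ := by
      have : ρ * (1 - 1 / C) = ρ - ρ / C := by ring
      rw [this]; linarith
    have h4 : κ * (1 - 1 / C) = 1 := by
      rw [hκ]; field_simp
    calc ρ = κ * (ρ * (1 - 1 / C)) := by rw [mul_left_comm, h4, mul_one]
      _ ≤ κ * ‖v - p‖ := by gcongr
  have h5 := abs_G_sub_le_log (s := ‖v - p‖ ^ 2) (t := ρ ^ 2) (C := κ ^ 2) (by positivity)
    (by positivity) (by nlinarith) (by nlinarith) (by nlinarith)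
  refine h5.trans ?_
  rw [Real.log_pow]
  have h6 : Real.log κ ≤ κ - 1 := Real.log_le_sub_one_of_pos (by linarith)
  have h7 : κ - 1 = 1 / (C - 1) := by rw [hκ]; field_simp; ring
  rw [h7] at h6
  push_cast
  calc 2 * Real.log κ ≤ 2 * (1 / (C - 1)) := by gcongr
    _ = 2 / (C - 1) := by ring

omit [InnerProductSpace ℝ E] in
/-- a point not much further away from the nearest point `p₀` than `v` -/
lemma near_point {C R : ℝ} (hC : 1 < C) (hR : 0 ≤ R) {v p₀ p : E} (h : ‖p - p₀‖ < C * ‖v - p₀‖)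
    (hv : R ≤ ‖v - p₀‖) (hmin : ‖v - p₀‖ ≤ ‖v - p‖) :
    |G (‖v - p‖ ^ 2) - G (‖v - p₀‖ ^ 2)| ≤ 2 * Real.log (1 + C) / (1 + Real.log (1 + R ^ 2)) := by
  set r := ‖v - p₀‖ with hr
  have hr0 : 0 ≤ r := norm_nonneg _
  have h1 : ‖v - p‖ ≤ (1 + C) * r := by
    have : v - p = (v - p₀) - (p - p₀) := by abel
    rw [this]
    exact (norm_sub_le _ _).trans (by linarith)
  have hn : 0 ≤ ‖v - p‖ := norm_nonneg _
  have hrr : r ^ 2 ≤ ‖v - p‖ ^ 2 := by gcongr
  have hRr : R ^ 2 ≤ r ^ 2 := by gcongr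
  have := abs_G_sub_le_far (s := ‖v - p‖ ^ 2) (t := r ^ 2) (C := (1 + C) ^ 2) (R := R ^ 2)
    (by positivity) (hRr.trans hrr) hRr (by nlinarith) (by nlinarith [sq_nonneg r])
    (by rw [← mul_pow]; gcongr)
  rwa [Real.log_pow] at this

theorem exists_code (ε : ℝ) (hε : 0 < ε) : ∃ M T : ℕ, ∀ P : Finset E, P.Nonempty →
    ∃ c : E → Code P M T, ∀ v w, c v = c w →
      ∀ p ∈ P, |G (‖v - p‖ ^ 2) - G (‖w - p‖ ^ 2)| ≤ ε := by
  set C : ℝ := 1 + 8 / ε with hC
  have hC1 : 1 < C := by rw [hC]; have : 0 < 8 / ε := by positivity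
                         linarith
  have hC2 : 2 / (C - 1) = ε / 4 := by rw [hC]; field_simp; ring
  have hlogC : 0 ≤ Real.log (1 + C) := Real.log_nonneg (by linarith)
  obtain ⟨R, hR0, hR⟩ : ∃ R : ℝ, 0 < R ∧
      2 * Real.log (1 + C) / (1 + Real.log (1 + R ^ 2)) ≤ ε / 4 := by
    set q := 8 * Real.log (1 + C) / ε with hq
    have hq0 : 0 ≤ q := by positivity
    refine ⟨Real.exp q, Real.exp_pos _, ?_⟩
    have h1 : q ≤ Real.log (1 + Real.exp q ^ 2) := by
      rw [Real.le_log_iff_exp_le (by positivity)]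
      have : 1 ≤ Real.exp q := Real.one_le_exp hq0
      nlinarith
    rw [div_le_iff₀ (by linarith)]
    have : 2 * Real.log (1 + C) = ε / 4 * q := by rw [hq]; field_simp; ring
    rw [this]
    gcongr
    linarith
  set δ : ℝ := ε / 5 with hδ
  have hδ0 : 0 < δ := by positivity
  set A : ℝ := C * R with hA
  have hA0 : 0 < A := by positivity
  obtain ⟨T, hT⟩ := exists_nat_ge (R ^ 2 / (δ ^ 2 / A ^ 2))
  obtain ⟨M, hM⟩ := exists_nat_ge (max (R ^ 2 / δ) (2 / (ε / 4)))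
  have hT' : R ^ 2 ≤ T * (δ ^ 2 / A ^ 2) := by
    rwa [div_le_iff₀ (by positivity)] at hT
  refine ⟨M, T, fun P hP => ?_⟩
  have hex : ∀ v : E, ∃ k : Code P M T, Desc P M T ε δ C R A v k := by
    intro v
    obtain ⟨p₀, hp₀, hmin⟩ := Finset.exists_min_image P (fun p => ‖v - p‖) hP
    by_cases h : ‖v - p₀‖ < R
    · have hsq : ‖v - p₀‖ ^ 2 ≤ R ^ 2 := by gcongr
      obtain ⟨m, hm1, hm2⟩ := exists_floor (x := ‖v - p₀‖ ^ 2) (by positivity) hδ0 M
        ((div_le_div_of_nonneg_right hsq hδ0.le).trans ((le_max_left _ _).trans hM))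
      obtain ⟨c, hc⟩ := greedy P p₀ A δ hA0 hδ0 T (v - p₀) (hsq.trans hT')
      exact ⟨Sum.inl (⟨p₀, hp₀⟩, m, c), h, hm1, hm2, hc⟩
    · push Not at h
      have hG := G_bounds (‖v - p₀‖ ^ 2)
      obtain ⟨m, hm1, hm2⟩ := exists_floor (x := G (‖v - p₀‖ ^ 2) + 1) (by linarith)
        (by positivity : 0 < ε / 4) M
        ((div_le_div_of_nonneg_right (by linarith) (by positivity)).trans
          ((le_max_right _ _).trans hM))
      exact ⟨Sum.inr (⟨p₀, hp₀⟩, ⟨(P.filter (fun p => ‖p - p₀‖ < C * ‖v - p₀‖)).card,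
        Nat.lt_succ_of_le (Finset.card_filter_le _ _)⟩, m), h, hmin, rfl, hm1, hm2⟩
  choose c hc using hex
  refine ⟨c, fun v w hvw p hp => ?_⟩
  have h1 := hc v
  have h2 := hc w
  rw [← hvw] at h2
  rcases hk : c v with ⟨p₀, m, d⟩ | ⟨p₀, j, m⟩
  · rw [hk] at h1 h2
    obtain ⟨v1, v2, v3, v4⟩ := h1
    obtain ⟨w1, w2, w3, w4⟩ := h2
    by_cases hpA : ‖p - p₀‖ ≤ A
    · have a1 := v4 p hp hpA
      have a2 := w4 p hp hpA
      rw [inner_sub_left] at a1 a2
      rw [abs_le] at a1 a2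
      have e1 : v - p = (v - p₀) - (p - p₀) := by abel
      have e2 : w - p = (w - p₀) - (p - p₀) := by abel
      refine (abs_G_sub_le (by positivity) (by positivity)).trans ?_
      rw [e1, e2, norm_sub_sq_real (v - p₀) (p - p₀), norm_sub_sq_real (w - p₀) (p - p₀), abs_le]
      constructor <;> linarith
    · push Not at hpA
      have b1 := far_point hC1 (v := v) (p₀ := p₀) (p := p)
        (((mul_le_mul_of_nonneg_left v1.le (by linarith)).trans hpA.le))
      have b2 := far_point hC1 (v := w) (p₀ := p₀) (p := p)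
        (((mul_le_mul_of_nonneg_left w1.le (by linarith)).trans hpA.le))
      rw [hC2] at b1 b2
      rw [abs_le] at b1 b2 ⊢
      constructor <;> linarith
  · rw [hk] at h1 h2
    obtain ⟨v1, v2, v3, v4, v5⟩ := h1
    obtain ⟨w1, w2, w3, w4, w5⟩ := h2
    have hsets : P.filter (fun p : E => ‖p - (p₀ : E)‖ < C * ‖v - (p₀ : E)‖) =
        P.filter (fun p : E => ‖p - (p₀ : E)‖ < C * ‖w - (p₀ : E)‖) := by
      rcases le_total ‖v - p₀‖ ‖w - p₀‖ with h | h
      · refine Finset.eq_of_subset_of_card_le ?_ (by rw [v3, w3])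
        intro x hx
        rw [Finset.mem_filter] at hx ⊢
        exact ⟨hx.1, hx.2.trans_le (by gcongr)⟩
      · refine (Finset.eq_of_subset_of_card_le ?_ (by rw [v3, w3])).symm
        intro x hx
        rw [Finset.mem_filter] at hx ⊢
        exact ⟨hx.1, hx.2.trans_le (by gcongr)⟩
    by_cases hpn : ‖p - p₀‖ < C * ‖v - p₀‖
    · have hpw : ‖p - p₀‖ < C * ‖w - p₀‖ := by
        have : p ∈ P.filter (fun p : E => ‖p - (p₀ : E)‖ < C * ‖v - (p₀ : E)‖) := Finset.mem_filter.2 ⟨hp, hpn⟩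
        rw [hsets] at this
        exact (Finset.mem_filter.1 this).2
      have b1 := (near_point hC1 hR0.le hpn v1 (v2 p hp)).trans hR
      have b2 := (near_point hC1 hR0.le hpw w1 (w2 p hp)).trans hR
      rw [abs_le] at b1 b2 ⊢
      constructor <;> linarith
    · have hpw : ¬ ‖p - p₀‖ < C * ‖w - p₀‖ := by
        intro hpw
        have : p ∈ P.filter (fun p : E => ‖p - (p₀ : E)‖ < C * ‖w - (p₀ : E)‖) := Finset.mem_filter.2 ⟨hp, hpw⟩
        rw [← hsets] at this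
        exact hpn (Finset.mem_filter.1 this).2
      push Not at hpn hpw
      have b1 := far_point hC1 hpn
      have b2 := far_point hC1 hpw
      rw [hC2] at b1 b2
      rw [abs_le] at b1 b2 ⊢
      constructor <;> linarith

end Hilbert

end Pool.Agent.V5helper24.Null
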