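import Mathlib
import Pool.Agent.V5helper24.NullA

/-!
An isometric action of `ℤ` on a Hilbert space with unbounded and recurrent orbits (Edelstein).
-/

set_option autoImplicit false
open Filter Topology

namespace Pool.Agent.V5helper24.Null

/-- the coordinates of the orbit of `0` -/
noncomputable def coef (n : ℤ) (k : ℕ) : ℂ :=
  (2 : ℂ) ^ k * (Complex.exp (Complex.I * ((2 * Real.pi * n / 2 ^ (k ^ 2) : ℝ) : ℂ)) - 1)

lemma norm_coef_sub (m n : ℤ) (k : ℕ) : ‖coef m k - coef n k‖ = ‖coef (m - n) k‖ := by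
  have h : coef m k - coef n k =
      Complex.exp (Complex.I * ((2 * Real.pi * n / 2 ^ (k ^ 2) : ℝ) : ℂ)) * coef (m - n) k := by
    unfold coef
    have : Complex.exp (Complex.I * ((2 * Real.pi * m / 2 ^ (k ^ 2) : ℝ) : ℂ)) =
        Complex.exp (Complex.I * ((2 * Real.pi * n / 2 ^ (k ^ 2) : ℝ) : ℂ)) *
        Complex.exp (Complex.I * ((2 * Real.pi * (m - n : ℤ) / 2 ^ (k ^ 2) : ℝ) : ℂ)) := by
      rw [← Complex.exp_add]
      congr 1
      push_cast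
      ring
    rw [this]
    ring
  rw [h, norm_mul, mul_comm Complex.I, Complex.norm_exp_ofReal_mul_I, one_mul]

lemma norm_coef_le (n : ℤ) (k : ℕ) :
    ‖coef n k‖ ^ 2 ≤ (2 * Real.pi * n) ^ 2 * ((4 : ℝ) ^ k * (1 / 4) ^ (k ^ 2)) := by
  have h : ‖coef n k‖ ≤ 2 ^ k * |2 * Real.pi * n / 2 ^ (k ^ 2)| := by
    unfold coef
    rw [norm_mul, norm_pow, Complex.norm_ofNat]
    gcongr
    exact Real.norm_exp_I_mul_ofReal_sub_one_le
  calc ‖coef n k‖ ^ 2 ≤ (2 ^ k * |2 * Real.pi * n / 2 ^ (k ^ 2)|) ^ 2 := by gcongr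
    _ = _ := by
      rw [mul_pow, sq_abs, div_pow]
      have h4 : ((1 : ℝ) / 4) ^ (k ^ 2) = 1 / (2 ^ (k ^ 2)) ^ 2 := by
        rw [one_div, inv_pow, one_div, ← pow_mul, mul_comm (k ^ 2) 2, pow_mul]
        norm_num
      have h5 : ((2 : ℝ) ^ k) ^ 2 = 4 ^ k := by
        rw [← pow_mul, mul_comm k 2, pow_mul]
        norm_num
      rw [h4, h5]
      ring

lemma pow_bound (k : ℕ) : (4 : ℝ) ^ k * (1 / 4) ^ (k ^ 2) ≤ 4 * (1 / 4) ^ k := by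
  have h : 2 * k ≤ k ^ 2 + 1 := by
    rcases Nat.lt_or_ge k 2 with h | h
    · interval_cases k <;> norm_num
    · nlinarith
  have h1 : ((1 : ℝ) / 4) ^ (k ^ 2 + 1) ≤ (1 / 4) ^ (2 * k) :=
    pow_le_pow_of_le_one (by norm_num) (by norm_num) h
  have h2 : (4 : ℝ) ^ k * (1 / 4) ^ (2 * k) = (1 / 4) ^ k := by
    rw [two_mul, pow_add, ← mul_assoc, ← mul_pow]
    norm_num
  calc (4 : ℝ) ^ k * (1 / 4) ^ (k ^ 2) = 4 * ((4 : ℝ) ^ k * (1 / 4) ^ (k ^ 2 + 1)) := by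
        rw [pow_succ]; ring
    _ ≤ 4 * ((4 : ℝ) ^ k * (1 / 4) ^ (2 * k)) := by gcongr
    _ = _ := by rw [h2]

lemma norm_coef_le' (n : ℤ) (k : ℕ) :
    ‖coef n k‖ ^ 2 ≤ (2 * Real.pi * n) ^ 2 * (4 * (1 / 4) ^ k) :=
  (norm_coef_le n k).trans (mul_le_mul_of_nonneg_left (pow_bound k) (by positivity))

lemma summable_bound (C : ℝ) : Summable fun k : ℕ => C * (4 * (1 / 4 : ℝ) ^ k) :=
  ((summable_geometric_of_lt_one (by norm_num) (by norm_num)).mul_left 4).mul_left C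

lemma summable_coef (n : ℤ) : Summable fun k => ‖coef n k‖ ^ 2 :=
  Summable.of_nonneg_of_le (fun _ => by positivity) (norm_coef_le' n) (summable_bound _)

/-- the Hilbert space -/
abbrev H : Type := lp (fun _ : ℕ => ℂ) 2

lemma memlp_coef (n : ℤ) : Memℓp (coef n) 2 := by
  refine memℓp_gen ?_
  simpa using summable_coef n

/-- the orbit of `0` -/
noncomputable def B (n : ℤ) : H := ⟨coef n, memlp_coef n⟩

lemma norm_sq_eq (f : H) : ‖f‖ ^ 2 = ∑' k, ‖f k‖ ^ 2 := by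
  have := lp.norm_rpow_eq_tsum (p := 2) (by norm_num) f
  simpa using this

lemma norm_B_sq (n : ℤ) : ‖B n‖ ^ 2 = ∑' k, ‖coef n k‖ ^ 2 := norm_sq_eq _

lemma norm_B_sub (m n : ℤ) : ‖B m - B n‖ = ‖B (m - n)‖ := by
  have h : ‖B m - B n‖ ^ 2 = ‖B (m - n)‖ ^ 2 := by
    rw [norm_sq_eq, norm_B_sq]
    congr 1
    ext k
    have : (B m - B n) k = coef m k - coef n k := rfl
    rw [this, norm_coef_sub]
  exact (pow_left_inj₀ (norm_nonneg _) (norm_nonneg _) two_ne_zero).1 h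

/-- the return times -/
def ret (j : ℕ) : ℕ := 2 ^ (j ^ 2)

lemma coef_ret_eq_zero {j k : ℕ} (h : k ≤ j) : coef (ret j : ℤ) k = 0 := by
  unfold coef ret
  have h1 : k ^ 2 ≤ j ^ 2 := by gcongr
  have h2 : Complex.exp (Complex.I * ((2 * Real.pi * ((2 ^ (j ^ 2) : ℕ) : ℤ) / 2 ^ (k ^ 2) : ℝ) : ℂ))
      = 1 := by
    rw [Complex.exp_eq_one_iff]
    refine ⟨(2 ^ (j ^ 2 - k ^ 2) : ℕ), ?_⟩
    have h3 : (2 : ℂ) ^ (j ^ 2) = 2 ^ (j ^ 2 - k ^ 2) * 2 ^ (k ^ 2) := by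
      rw [← pow_add, Nat.sub_add_cancel h1]
    push_cast
    rw [h3]
    field_simp
  rw [h2]
  simp

lemma norm_coef_ret_le (j k : ℕ) :
    ‖coef (ret j : ℤ) k‖ ^ 2 ≤ (2 * Real.pi) ^ 2 * 4 * (4 * (1 / 4) ^ k) := by
  rcases le_or_gt k j with h | h
  · rw [coef_ret_eq_zero h]
    simp
    positivity
  · refine (norm_coef_le _ k).trans ?_
    unfold ret
    have h1 : j ^ 2 + 2 * k ≤ k ^ 2 + 1 := by nlinarith
    have h2 : (((2 ^ (j ^ 2) : ℕ) : ℤ) : ℝ) ^ 2 * (1 / 4) ^ (k ^ 2) ≤ 4 * (1 / 4) ^ (2 * k) := by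
      have h3 : ((1 : ℝ) / 4) ^ (k ^ 2 + 1) ≤ (1 / 4) ^ (j ^ 2 + 2 * k) :=
        pow_le_pow_of_le_one (by norm_num) (by norm_num) h1
      have h4 : (((2 ^ (j ^ 2) : ℕ) : ℤ) : ℝ) ^ 2 = 4 ^ (j ^ 2) := by
        push_cast
        rw [← pow_mul, mul_comm (j ^ 2) 2, pow_mul]
        norm_num
      rw [h4]
      calc (4 : ℝ) ^ (j ^ 2) * (1 / 4) ^ (k ^ 2)
          = 4 * (4 ^ (j ^ 2) * (1 / 4) ^ (k ^ 2 + 1)) := by rw [pow_succ]; ring
        _ ≤ 4 * (4 ^ (j ^ 2) * (1 / 4) ^ (j ^ 2 + 2 * k)) := by gcongr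
        _ = 4 * (1 / 4) ^ (2 * k) := by
          rw [pow_add, ← mul_assoc (4 ^ (j ^ 2) : ℝ), ← mul_pow]
          norm_num
    have h5 : (4 : ℝ) ^ k * (1 / 4) ^ (2 * k) = (1 / 4) ^ k := by
      rw [two_mul, pow_add, ← mul_assoc, ← mul_pow]
      norm_num
    calc (2 * Real.pi * (((2 ^ (j ^ 2) : ℕ) : ℤ) : ℝ)) ^ 2 * (4 ^ k * (1 / 4) ^ (k ^ 2))
        = (2 * Real.pi) ^ 2 * 4 ^ k * ((((2 ^ (j ^ 2) : ℕ) : ℤ) : ℝ) ^ 2 * (1 / 4) ^ (k ^ 2)) := by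
          ring
      _ ≤ (2 * Real.pi) ^ 2 * 4 ^ k * (4 * (1 / 4) ^ (2 * k)) := by gcongr
      _ = (2 * Real.pi) ^ 2 * 4 * (4 ^ k * (1 / 4) ^ (2 * k)) := by ring
      _ = (2 * Real.pi) ^ 2 * 4 * ((1 / 4) ^ k) := by rw [h5]
      _ ≤ _ := by
        have : (0 : ℝ) ≤ (1 / 4) ^ k := by positivity
        have h6 : (0 : ℝ) ≤ (2 * Real.pi) ^ 2 * 4 := by positivity
        nlinarith [mul_nonneg h6 this]

lemma tendsto_norm_B_ret : Tendsto (fun j => ‖B (ret j : ℤ)‖) atTop (𝓝 0) := by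
  have h : Tendsto (fun j => ‖B (ret j : ℤ)‖ ^ 2) atTop (𝓝 0) := by
    simp_rw [norm_B_sq]
    have := tendsto_tsum_of_dominated_convergence (𝓕 := atTop)
      (f := fun (j : ℕ) (k : ℕ) => ‖coef (ret j : ℤ) k‖ ^ 2) (g := fun _ => (0 : ℝ))
      (bound := fun k : ℕ => (2 * Real.pi) ^ 2 * 4 * (4 * (1 / 4 : ℝ) ^ k))
      (summable_bound _) ?_ ?_
    · simpa using this
    · intro k
      refine tendsto_const_nhds.congr' ?_
      filter_upwards [eventually_ge_atTop k] with j hj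
      rw [coef_ret_eq_zero hj]
      simp
    · filter_upwards with j k
      rw [Real.norm_eq_abs, abs_of_nonneg (by positivity)]
      exact norm_coef_ret_le j k
  have h2 := h.sqrt
  simpa [Real.sqrt_sq (norm_nonneg _)] using h2

/-- the times at which the orbit is far away -/
def away (k : ℕ) : ℕ := 2 ^ ((k + 1) ^ 2 - 1)

lemma norm_B_away (k : ℕ) : (2 : ℝ) ^ (k + 1) ≤ ‖B (away k : ℤ)‖ := by
  have h1 : ‖coef (away k : ℤ) (k + 1)‖ ^ 2 ≤ ‖B (away k : ℤ)‖ ^ 2 := by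
    rw [norm_B_sq]
    exact (summable_coef _).le_tsum (k + 1) (fun _ _ => by positivity)
  have h2 : coef (away k : ℤ) (k + 1) = 2 ^ (k + 1) * (-2) := by
    unfold coef away
    have h3 : ((2 * Real.pi * ((2 ^ ((k + 1) ^ 2 - 1) : ℕ) : ℤ) / 2 ^ ((k + 1) ^ 2) : ℝ) : ℂ)
        = Real.pi := by
      have h4 : (2 : ℝ) ^ ((k + 1) ^ 2) = 2 ^ ((k + 1) ^ 2 - 1) * 2 := by
        rw [← pow_succ, Nat.sub_add_cancel (Nat.one_le_pow _ _ (by omega))]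
      congr 1
      rw [h4]
      push_cast
      field_simp
    rw [h3, mul_comm Complex.I, Complex.exp_pi_mul_I]
    norm_num
  have h5 : ‖coef (away k : ℤ) (k + 1)‖ = 2 ^ (k + 1) * 2 := by
    rw [h2, norm_mul, norm_pow]
    simp
  have h6 := (pow_le_pow_iff_left₀ (norm_nonneg _) (norm_nonneg _) two_ne_zero).1 h1
  rw [h5] at h6
  have : (0 : ℝ) < 2 ^ (k + 1) := by positivity
  linarith

end Pool.Agent.V5helper24.Null
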