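import Mathlib
import Pool.Agent.V5helper24.NullB

/-!
A null transitive system with two fixed points.
-/

set_option autoImplicit false
open Filter Topology

namespace Pool.Agent.V5helper24.Null

attribute [local instance] PiCountable.metricSpace

/-- the orbit of the transitive point -/
noncomputable def orb (m : ℕ) : ℕ → ℝ := fun i => G (‖B ((m + i : ℕ) : ℤ)‖ ^ 2)

lemma orb_eq (m i : ℕ) : orb m i = G (‖B m - B (-(i : ℤ))‖ ^ 2) := by
  rw [norm_B_sub]
  unfold orb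
  congr 4
  push_cast
  ring

/-- the phase space -/
abbrev XX : Type := {y : ℕ → ℝ // y ∈ closure (Set.range orb)}

lemma orb_mem (m : ℕ) : orb m ∈ closure (Set.range orb) := subset_closure ⟨m, rfl⟩

lemma continuous_shift : Continuous (fun (y : ℕ → ℝ) (i : ℕ) => y (i + 1)) :=
  continuous_pi fun i => continuous_apply (i + 1)

lemma shift_mem {y : ℕ → ℝ} (hy : y ∈ closure (Set.range orb)) :
    (fun i => y (i + 1)) ∈ closure (Set.range orb) := by
  refine map_mem_closure continuous_shift hy ?_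
  rintro _ ⟨m, rfl⟩
  refine ⟨m + 1, ?_⟩
  ext i
  unfold orb
  congr 4
  push_cast
  ring

/-- the shift -/
def TT (y : XX) : XX := ⟨fun i => y.1 (i + 1), shift_mem y.2⟩

lemma continuous_TT : Continuous TT :=
  (continuous_shift.comp continuous_subtype_val).subtype_mk _

lemma TT_iterate (k : ℕ) (y : XX) (i : ℕ) : (TT^[k] y).1 i = y.1 (i + k) := by
  induction k generalizing y i with
  | zero => rfl
  | succ k ih =>
    rw [Function.iterate_succ_apply, ih]
    change y.1 (i + k + 1) = _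
    rw [add_assoc]

lemma orb_bound (m i : ℕ) : orb m i ∈ Set.Icc (-1 : ℝ) 1 := G_bounds _

instance : CompactSpace XX := by
  refine isCompact_iff_compactSpace.1 ?_
  have h : IsCompact (Set.pi Set.univ fun _ : ℕ => Set.Icc (-1 : ℝ) 1) :=
    isCompact_univ_pi fun _ => isCompact_Icc
  refine h.of_isClosed_subset isClosed_closure ?_
  refine closure_minimal ?_ h.isClosed
  rintro _ ⟨m, rfl⟩ i _
  exact orb_bound m i

lemma exists_dist_lt (ε : ℝ) (hε : 0 < ε) : ∃ (w : ℕ) (δ : ℝ), 0 < w ∧ 0 < δ ∧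
    ∀ y z : ℕ → ℝ, (∀ l < w, |y l - z l| < δ) → dist y z < ε := by
  obtain ⟨w, hw⟩ := exists_pow_lt_of_lt_one (by positivity : 0 < ε / 4)
    (by norm_num : (2⁻¹ : ℝ) < 1)
  refine ⟨w + 1, ε / (2 * (w + 1)), by omega, by positivity, fun y z h => ?_⟩
  obtain ⟨u, hu⟩ : ∃ u : ℕ → ℝ, u = fun i => min (2⁻¹ ^ Encodable.encode i) (dist (y i) (z i)) :=
    ⟨_, rfl⟩
  have hsum : Summable u := hu ▸ PiCountable.dist_summable y z
  have hd : dist y z = ∑' i, u i := by rw [hu]; exact PiCountable.dist_eq_tsum y z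
  rw [hd, ← hsum.sum_add_tsum_nat_add (w + 1)]
  have h1 : ∑ i ∈ Finset.range (w + 1), u i ≤ ∑ i ∈ Finset.range (w + 1), ε / (2 * (w + 1)) := by
    refine Finset.sum_le_sum fun i hi => ?_
    rw [hu]
    refine (min_le_right _ _).trans ?_
    rw [Real.dist_eq]
    exact (h i (Finset.mem_range.1 hi)).le
  have h2 : ∑ i ∈ Finset.range (w + 1), ε / (2 * ((w : ℝ) + 1)) = ε / 2 := by
    rw [Finset.sum_const, Finset.card_range, nsmul_eq_mul]
    push_cast
    field_simp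
  have h3 : ∑' i, u (i + (w + 1)) ≤ ∑' i : ℕ, (2⁻¹ : ℝ) ^ (w + 1) * 2⁻¹ ^ i := by
    refine Summable.tsum_le_tsum (fun i => ?_) ?_ ?_
    · rw [hu]
      refine (min_le_left _ _).trans (le_of_eq ?_)
      rw [Encodable.encode_nat, pow_add, mul_comm]
    · exact (summable_nat_add_iff (w + 1)).2 hsum
    · exact (summable_geometric_of_lt_one (by norm_num) (by norm_num)).mul_left _
  have h4 : ∑' i : ℕ, (2⁻¹ : ℝ) ^ (w + 1) * 2⁻¹ ^ i = 2⁻¹ ^ w := by
    rw [tsum_mul_left, tsum_geometric_of_lt_one (by norm_num) (by norm_num), pow_succ,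
      mul_assoc]
    norm_num
  linarith

/-! ### Transitivity -/

lemma tendsto_orb_ret (m : ℕ) : Tendsto (fun j => orb (m + ret j)) atTop (𝓝 (orb m)) := by
  rw [tendsto_pi_nhds]
  intro i
  have h : Tendsto (fun j => ‖B ((m + ret j + i : ℕ) : ℤ)‖) atTop (𝓝 ‖B ((m + i : ℕ) : ℤ)‖) := by
    rw [tendsto_iff_dist_tendsto_zero]
    refine squeeze_zero (fun _ => dist_nonneg) (fun j => ?_) tendsto_norm_B_ret
    rw [Real.dist_eq]
    refine (abs_norm_sub_norm_le _ _).trans (le_of_eq ?_)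
    rw [norm_B_sub]
    congr 2
    push_cast
    ring
  have h2 := h.pow 2
  rw [tendsto_iff_dist_tendsto_zero] at h2 ⊢
  refine squeeze_zero (fun _ => dist_nonneg) (fun j => ?_) h2
  rw [Real.dist_eq, Real.dist_eq]
  exact abs_G_sub_le (by positivity) (by positivity)

lemma ret_tendsto : Tendsto ret atTop atTop := by
  refine tendsto_atTop_mono (fun j => ?_) tendsto_id
  unfold ret
  have h1 : j < 2 ^ j := Nat.lt_two_pow_self
  have h2 : 2 ^ j ≤ 2 ^ (j ^ 2) := by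
    apply Nat.pow_le_pow_right (by norm_num)
    nlinarith [Nat.zero_le j, sq_nonneg j, Nat.le_self_pow (two_ne_zero) j]
  simp only [id]
  omega

lemma exists_orb_mem {U : Set XX} (hU : IsOpen U) (hne : U.Nonempty) :
    ∃ m : ℕ, (⟨orb m, orb_mem m⟩ : XX) ∈ U := by
  obtain ⟨y, hy⟩ := hne
  obtain ⟨W, hW, rfl⟩ := isOpen_induced_iff.1 hU
  obtain ⟨_, h1, ⟨m, rfl⟩⟩ := mem_closure_iff.1 y.2 W hW hy
  exact ⟨m, h1⟩

lemma iterate_orb (m k : ℕ) :
    TT^[k] ⟨orb m, orb_mem m⟩ = ⟨orb (m + k), orb_mem (m + k)⟩ := by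
  apply Subtype.ext
  ext i
  rw [TT_iterate]
  change G (‖B ((m + (i + k) : ℕ) : ℤ)‖ ^ 2) = G (‖B ((m + k + i : ℕ) : ℤ)‖ ^ 2)
  rw [show m + (i + k) = m + k + i by ring]

theorem transitive (U V : Set XX) (hU : IsOpen U) (hV : IsOpen V) (hU' : U.Nonempty)
    (hV' : V.Nonempty) : ∃ n : ℕ, 1 ≤ n ∧ (V ∩ TT^[n] ⁻¹' U).Nonempty := by
  obtain ⟨m, hm⟩ := exists_orb_mem hU hU'
  obtain ⟨m', hm'⟩ := exists_orb_mem hV hV'
  have h1 : Tendsto (fun j => (⟨orb (m + ret j), orb_mem _⟩ : XX)) atTop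
      (𝓝 ⟨orb m, orb_mem m⟩) := by
    rw [tendsto_subtype_rng]
    exact tendsto_orb_ret m
  obtain ⟨j, hj1, hj2⟩ := ((h1.eventually (hU.mem_nhds hm)).and
    (ret_tendsto.eventually (eventually_ge_atTop (m' + 1)))).exists
  refine ⟨m + ret j - m', by omega, ⟨orb m', orb_mem m'⟩, hm', ?_⟩
  change TT^[m + ret j - m'] ⟨orb m', orb_mem m'⟩ ∈ U
  rw [iterate_orb]
  have : m' + (m + ret j - m') = m + ret j := by omega
  simp only [this]
  exact hj1

/-! ### Nullness -/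

lemma exists_orb_near (y : XX) (J : Finset ℕ) (δ : ℝ) (hδ : 0 < δ) :
    ∃ m : ℕ, ∀ j ∈ J, |y.1 j - orb m j| < δ := by
  have hopen : IsOpen {z : ℕ → ℝ | ∀ j ∈ J, |y.1 j - z j| < δ} := by
    have : {z : ℕ → ℝ | ∀ j ∈ J, |y.1 j - z j| < δ} = ⋂ j ∈ J, {z | |y.1 j - z j| < δ} := by
      ext z; simp
    rw [this]
    refine isOpen_biInter_finset fun j _ => ?_
    exact isOpen_lt (by fun_prop) continuous_const
  obtain ⟨_, h1, ⟨m, rfl⟩⟩ := mem_closure_iff.1 y.2 _ hopen (by simpa using fun _ _ => hδ)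
  exact ⟨m, h1⟩

theorem null (a : ℕ → ℕ) (ε : ℝ) (hε : 0 < ε) (δ : ℝ) (hδ : 0 < δ) :
    ∀ᶠ n in atTop, ∀ F : Finset XX,
      (∀ x ∈ F, ∀ y ∈ F, x ≠ y → ∃ i < n, ε ≤ dist (TT^[a i] x) (TT^[a i] y)) →
      (F.card : ℝ) ≤ Real.exp (δ * n) := by
  obtain ⟨w, η, hw, hη, hdist⟩ := exists_dist_lt ε hε
  obtain ⟨M, T, hcode⟩ := exists_code (E := H) (η / 4) (by positivity)
  have hbound : ∀ᶠ n : ℕ in atTop,
      ((2 * (M + 1)) * (2 * w + 1) ^ (T + 2) : ℝ) * (n : ℝ) ^ (T + 2) ≤ Real.exp (δ * n) := by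
    set c : ℝ := (2 * (M + 1)) * (2 * w + 1) ^ (T + 2) with hc
    have hc0 : 0 < c := by positivity
    have h1 := (isLittleO_pow_exp_pos_mul_atTop (T + 2) hδ).bound (c := 1 / c) (by positivity)
    have h2 := tendsto_natCast_atTop_atTop.eventually h1
    filter_upwards [h2] with n hn
    rw [Real.norm_eq_abs, Real.norm_eq_abs, abs_of_nonneg (by positivity),
      abs_of_nonneg (by positivity)] at hn
    calc c * (n : ℝ) ^ (T + 2) ≤ c * (1 / c * Real.exp (δ * n)) := by gcongr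
      _ = Real.exp (δ * n) := by field_simp
  filter_upwards [hbound, eventually_ge_atTop 1] with n hn hn1 F hF
  classical
  set P : Finset H := (Finset.range n ×ˢ Finset.range w).image
    (fun q => B (-((q.2 + a q.1 : ℕ) : ℤ))) with hP
  have hPne : P.Nonempty := by
    refine ⟨B (-((0 + a 0 : ℕ) : ℤ)), Finset.mem_image.2 ⟨(0, 0), ?_, rfl⟩⟩
    simp only [Finset.mem_product, Finset.mem_range]
    exact ⟨hn1, hw⟩
  have hPcard : P.card ≤ n * w := by
    refine Finset.card_image_le.trans ?_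
    simp
  obtain ⟨c, hc⟩ := hcode P hPne
  set J : Finset ℕ := (Finset.range n ×ˢ Finset.range w).image (fun q => q.2 + a q.1) with hJ
  choose m hm using fun y : XX => exists_orb_near y J (η / 4) (by positivity)
  have hinj : Set.InjOn (fun y : XX => c (B (m y : ℤ))) (F : Set XX) := by
    intro x hx y hy hxy
    by_contra hne
    obtain ⟨i, hi, hdi⟩ := hF x hx y hy hne
    refine absurd (hdist _ _ fun l hl => ?_) (not_lt.2 hdi)
    rw [TT_iterate, TT_iterate]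
    have hmem : (i, l) ∈ Finset.range n ×ˢ Finset.range w := by
      simp only [Finset.mem_product, Finset.mem_range]
      exact ⟨hi, hl⟩
    have hjJ : l + a i ∈ J := Finset.mem_image.2 ⟨(i, l), hmem, rfl⟩
    have hjP : B (-((l + a i : ℕ) : ℤ)) ∈ P := Finset.mem_image.2 ⟨(i, l), hmem, rfl⟩
    have h1 := hm x _ hjJ
    have h2 := hm y _ hjJ
    have h3 := hc _ _ hxy _ hjP
    rw [← orb_eq, ← orb_eq] at h3
    rw [abs_lt] at h1 h2 ⊢
    rw [abs_le] at h3
    constructor <;> linarith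
  have hcard : F.card ≤ Fintype.card (Code P M T) := by
    rw [← Finset.card_univ]
    exact Finset.card_le_card_of_injOn _ (fun _ _ => Finset.mem_univ _) hinj
  have h5 : F.card ≤ (2 * (M + 1)) * (2 * P.card + 1) ^ (T + 2) := hcard.trans (card_code_le P M T)
  have h6 : F.card ≤ (2 * (M + 1)) * ((2 * w + 1) * n) ^ (T + 2) := by
    refine h5.trans ?_
    gcongr
    nlinarith
  calc (F.card : ℝ) ≤ (((2 * (M + 1)) * ((2 * w + 1) * n) ^ (T + 2) : ℕ) : ℝ) := by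
        exact_mod_cast h6
    _ = ((2 * (M + 1)) * (2 * w + 1) ^ (T + 2) : ℝ) * (n : ℝ) ^ (T + 2) := by
        push_cast
        rw [mul_pow]
        ring
    _ ≤ _ := hn

/-! ### Constant points -/

lemma slow {S η R : ℝ} (hR : 0 ≤ R) (hRS : (2 * S) ^ 2 ≤ R) (hS : 0 ≤ S)
    (hη : Real.log 4 / (1 + Real.log (1 + R / 4)) ≤ η) {m n : ℤ} (hm : R ≤ ‖B m‖ ^ 2)
    (hmn : ‖B n - B m‖ ≤ S) : |L (‖B n‖ ^ 2) - L (‖B m‖ ^ 2)| ≤ η := by
  have h1 : 2 * S ≤ ‖B m‖ := by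
    refine (pow_le_pow_iff_left₀ (by positivity) (norm_nonneg _) two_ne_zero).1 (hRS.trans hm)
  have h2 : ‖B n‖ ≤ ‖B m‖ + S := by
    have : B n = B m + (B n - B m) := by abel
    rw [this]
    exact (norm_add_le _ _).trans (by linarith)
  have h3 : ‖B m‖ ≤ ‖B n‖ + S := by
    have : B m = B n - (B n - B m) := by abel
    rw [this]
    exact (norm_sub_le _ _).trans (by simpa using hmn)
  have hn0 := norm_nonneg (B n)
  have hm0 := norm_nonneg (B m)
  refine (abs_L_sub_le_far (R := R / 4) (C := 4) (by positivity) ?_ ?_ (by norm_num) ?_ ?_).trans hη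
  · nlinarith
  · linarith
  · nlinarith
  · nlinarith

lemma tendsto_log1 : Tendsto (fun R : ℝ => 1 + Real.log (1 + R / 4)) atTop atTop := by
  refine tendsto_atTop_add_const_left _ _ (Real.tendsto_log_atTop.comp ?_)
  exact tendsto_atTop_add_const_left _ _ (tendsto_id.atTop_div_const (by norm_num))

lemma tendsto_L : Tendsto L atTop atTop := by
  refine Real.tendsto_log_atTop.comp (tendsto_atTop_add_const_left _ _
    (Real.tendsto_log_atTop.comp ?_))
  exact tendsto_atTop_add_const_left _ _ tendsto_id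

lemma exists_large (θ : ℝ) : ∃ m : ℕ, θ ≤ L (‖B (m : ℤ)‖ ^ 2) := by
  have h1 : Tendsto (fun k : ℕ => ((2 : ℝ) ^ (k + 1)) ^ 2) atTop atTop := by
    refine (tendsto_pow_atTop two_ne_zero).comp ?_
    exact (tendsto_pow_atTop_atTop_of_one_lt (by norm_num : (1 : ℝ) < 2)).comp
      (tendsto_add_atTop_nat 1)
  obtain ⟨k, hk⟩ := ((tendsto_L.comp h1).eventually (eventually_ge_atTop θ)).exists
  refine ⟨away k, hk.trans (L_mono (by positivity) ?_)⟩
  exact pow_le_pow_left₀ (by positivity) (norm_B_away k) 2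

lemma exists_const (c : ℝ) (hc : ∀ R : ℝ, ∃ θ, R < θ ∧ Real.sin θ = c) (w : ℕ) (ε : ℝ)
    (hε : 0 < ε) : ∃ m : ℕ, ∀ i < w, |c - orb m i| < ε := by
  set S : ℝ := ∑ i ∈ Finset.range (w + 2), ‖B (i : ℤ)‖ with hS
  have hS0 : 0 ≤ S := Finset.sum_nonneg fun _ _ => norm_nonneg _
  have hSi : ∀ i < w + 2, ‖B (i : ℤ)‖ ≤ S := fun i hi =>
    Finset.single_le_sum (f := fun i : ℕ => ‖B (i : ℤ)‖) (fun _ _ => norm_nonneg _)
      (Finset.mem_range.2 hi)
  have hlim : Tendsto (fun R : ℝ => Real.log 4 / (1 + Real.log (1 + R / 4))) atTop (𝓝 0) :=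
    tendsto_const_nhds.div_atTop tendsto_log1
  obtain ⟨R, hR1, hR2, hR3⟩ := ((hlim.eventually (ge_mem_nhds (by positivity : 0 < ε / 3))).and
    ((eventually_ge_atTop ((2 * S) ^ 2)).and (eventually_ge_atTop (0 : ℝ)))).exists
  obtain ⟨θ, hθ1, hθ2⟩ := hc (max (L R) 0)
  have hθL : L R < θ := (le_max_left _ _).trans_lt hθ1
  have hθ0 : 0 < θ := (le_max_right _ _).trans_lt hθ1
  classical
  have hex := exists_large θ
  set m := Nat.find hex with hm
  have hm1 : θ ≤ L (‖B (m : ℤ)‖ ^ 2) := Nat.find_spec hex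
  have hm0 : m ≠ 0 := by
    intro h0
    rw [h0] at hm1
    have : ‖B ((0 : ℕ) : ℤ)‖ ^ 2 = 0 := by
      have h := norm_B_sub 0 0
      simp only [sub_self, norm_zero] at h
      simp [← h]
    rw [this] at hm1
    have hL0 : L 0 = 0 := by simp [L]
    linarith
  have hm2 : L (‖B ((m - 1 : ℕ) : ℤ)‖ ^ 2) < θ := by
    have := Nat.find_min hex (m := m - 1) (by omega)
    simpa using this
  have hmR : R ≤ ‖B (m : ℤ)‖ ^ 2 := by
    by_contra h
    push Not at h
    have := L_mono (by positivity) h.le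
    linarith
  have e1 : |L (‖B ((m - 1 : ℕ) : ℤ)‖ ^ 2) - L (‖B (m : ℤ)‖ ^ 2)| ≤ ε / 3 := by
    refine slow hR3 hR2 hS0 hR1 hmR ?_
    rw [← norm_neg, neg_sub, norm_B_sub]
    have : ((m : ℤ) - ((m - 1 : ℕ) : ℤ)) = ((1 : ℕ) : ℤ) := by
      have : 1 ≤ m := by omega
      push_cast [Nat.cast_sub this]
      ring
    rw [this]
    exact hSi 1 (by omega)
  refine ⟨m, fun i hi => ?_⟩
  have e2 : |L (‖B ((m + i : ℕ) : ℤ)‖ ^ 2) - L (‖B (m : ℤ)‖ ^ 2)| ≤ ε / 3 := by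
    refine slow hR3 hR2 hS0 hR1 hmR ?_
    rw [norm_B_sub]
    have : (((m + i : ℕ) : ℤ) - (m : ℤ)) = (i : ℤ) := by
      push_cast
      ring
    rw [this]
    exact hSi i (by omega)
  rw [← hθ2]
  unfold orb G
  refine (abs_sin_sub_le _ _).trans_lt ?_
  rw [abs_le] at e1 e2
  rw [abs_lt]
  constructor <;> linarith

lemma const_mem (c : ℝ) (hc : ∀ R : ℝ, ∃ θ, R < θ ∧ Real.sin θ = c) :
    (fun _ : ℕ => c) ∈ closure (Set.range orb) := by
  rw [Metric.mem_closure_iff]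
  intro ε hε
  obtain ⟨w, η, hw, hη, hdist⟩ := exists_dist_lt ε hε
  obtain ⟨m, hm⟩ := exists_const c hc w η hη
  exact ⟨_, ⟨m, rfl⟩, hdist _ _ hm⟩

lemma exists_close (c : ℝ) (hc : ∀ R : ℝ, ∃ θ, R < θ ∧ Real.sin θ = c) (δ : ℝ) (hδ : 0 < δ) :
    ∃ m : ℕ, dist (⟨orb m, orb_mem m⟩ : XX) ⟨fun _ => c, const_mem c hc⟩ < δ := by
  obtain ⟨w, η, hw, hη, hdist⟩ := exists_dist_lt δ hδ
  obtain ⟨m, hm⟩ := exists_const c hc w η hη
  refine ⟨m, ?_⟩
  rw [dist_comm]
  exact hdist _ _ hm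

lemma sin_one (R : ℝ) : ∃ θ, R < θ ∧ Real.sin θ = 1 := by
  obtain ⟨k, hk⟩ := exists_nat_gt R
  refine ⟨Real.pi / 2 + k * (2 * Real.pi), ?_, ?_⟩
  · have h1 := Real.pi_gt_three
    have h2 : (0 : ℝ) ≤ k := Nat.cast_nonneg k
    nlinarith
  · rw [Real.sin_add_nat_mul_two_pi, Real.sin_pi_div_two]

lemma sin_neg_one (R : ℝ) : ∃ θ, R < θ ∧ Real.sin θ = -1 := by
  obtain ⟨k, hk⟩ := exists_nat_gt (R + 2)
  refine ⟨-(Real.pi / 2) + k * (2 * Real.pi), ?_, ?_⟩
  · have h1 := Real.pi_gt_three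
    have h3 := Real.pi_lt_four
    have h2 : (0 : ℝ) ≤ k := Nat.cast_nonneg k
    nlinarith
  · rw [Real.sin_add_nat_mul_two_pi, Real.sin_neg, Real.sin_pi_div_two]

lemma fixed_const (c : ℝ) (hc : ∀ R : ℝ, ∃ θ, R < θ ∧ Real.sin θ = c) (k : ℕ) :
    TT^[k] ⟨fun _ => c, const_mem c hc⟩ = ⟨fun _ => c, const_mem c hc⟩ := by
  apply Subtype.ext
  ext i
  rw [TT_iterate]

/-- averages -/
lemma averages {f g : ℕ → ℝ} {D : ℝ} (hD : 0 < D) (hf : ∀ i, 0 ≤ f i) (hg : ∀ i, 0 ≤ g i)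
    (hfg : ∀ i, D ≤ f i + g i) (m m' : ℕ)
    (h1 : ∀ᶠ n : ℕ in atTop, (∑ i ∈ Finset.range n, f (m + i)) / (n : ℝ) < D / 3)
    (h2 : ∀ᶠ n : ℕ in atTop, (∑ i ∈ Finset.range n, g (m' + i)) / (n : ℝ) < D / 3) : False := by
  obtain ⟨n1, hn1⟩ := eventually_atTop.1 h1
  obtain ⟨n2, hn2⟩ := eventually_atTop.1 h2
  obtain ⟨n, hn⟩ : ∃ n : ℕ, n1 + n2 + m + m' + 1 ≤ n := ⟨_, le_rfl⟩
  have a1 := hn1 (n + m') (by omega)
  have a2 := hn2 (n + m) (by omega)
  have hnpos : (0 : ℝ) < n := by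
    have : 0 < n := by omega
    exact_mod_cast this
  rw [div_lt_iff₀ (by push_cast; positivity)] at a1 a2
  have b1 : ∑ i ∈ Finset.range n, f (m + m' + i) ≤ ∑ i ∈ Finset.range (n + m'), f (m + i) := by
    rw [add_comm n m', Finset.sum_range_add]
    have : ∑ i ∈ Finset.range n, f (m + m' + i) = ∑ i ∈ Finset.range n, f (m + (m' + i)) :=
      Finset.sum_congr rfl fun i _ => by rw [add_assoc]
    rw [this]
    exact le_add_of_nonneg_left (Finset.sum_nonneg fun _ _ => hf _)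
  have b2 : ∑ i ∈ Finset.range n, g (m + m' + i) ≤ ∑ i ∈ Finset.range (n + m), g (m' + i) := by
    rw [add_comm n m, Finset.sum_range_add]
    have : ∑ i ∈ Finset.range n, g (m + m' + i) = ∑ i ∈ Finset.range n, g (m' + (m + i)) :=
      Finset.sum_congr rfl fun i _ => by rw [← add_assoc, add_comm m' m]
    rw [this]
    exact le_add_of_nonneg_left (Finset.sum_nonneg fun _ _ => hg _)
  have b3 : (n : ℝ) * D ≤ ∑ i ∈ Finset.range n, (f (m + m' + i) + g (m + m' + i)) := by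
    calc (n : ℝ) * D = ∑ _i ∈ Finset.range n, D := by simp
      _ ≤ _ := Finset.sum_le_sum fun i _ => hfg _
  rw [Finset.sum_add_distrib] at b3
  push_cast at a1 a2
  have hmm : (m : ℝ) + m' < n := by
    have : m + m' < n := by omega
    exact_mod_cast this
  nlinarith

theorem not_mean_equicontinuous : ¬ ∀ ε : ℝ, 0 < ε → ∃ δ : ℝ, 0 < δ ∧ ∀ x y : XX, dist x y < δ →
    ∀ᶠ n in atTop, (∑ i ∈ Finset.range n, dist (TT^[i] x) (TT^[i] y)) / (n : ℝ) < ε := by
  intro h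
  set p : XX := ⟨fun _ => 1, const_mem 1 sin_one⟩ with hp
  set q : XX := ⟨fun _ => -1, const_mem (-1) sin_neg_one⟩ with hq
  have hpq : p ≠ q := by
    intro h
    have h1 := congrArg Subtype.val h
    have h2 := congrFun h1 0
    norm_num [hp, hq] at h2
  have hD : 0 < dist p q := dist_pos.2 hpq
  obtain ⟨δ, hδ, h⟩ := h (dist p q / 3) (by positivity)
  obtain ⟨m, hm⟩ := exists_close 1 sin_one δ hδ
  obtain ⟨m', hm'⟩ := exists_close (-1) sin_neg_one δ hδ
  have h1 := h _ _ hm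
  have h2 := h _ _ hm'
  refine averages (f := fun i => dist (⟨orb i, orb_mem i⟩ : XX) p)
    (g := fun i => dist (⟨orb i, orb_mem i⟩ : XX) q) hD (fun _ => dist_nonneg)
    (fun _ => dist_nonneg) (fun i => ?_) m m' ?_ ?_
  · exact (dist_triangle p (⟨orb i, orb_mem i⟩ : XX) q).trans
      (by rw [dist_comm p])
  · filter_upwards [h1] with n hn
    simp only [iterate_orb, fixed_const 1 sin_one] at hn
    exact hn
  · filter_upwards [h2] with n hn
    simp only [iterate_orb, fixed_const (-1) sin_neg_one] at hn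
    exact hn

end Pool.Agent.V5helper24.Null
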